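import Pool.Agent.H18.CGR.Stmts

/-!
# Board cgr, row CYA
-/

set_option autoImplicit false

open Filter
open scoped Topology

namespace Pool.CGR

namespace CYAAux

theorem summ {β : Type} (c : β → ℂ) (f : β →₀ ℂ) : Summable (fun z => c z * f z) := by
  apply summable_of_finite_support
  apply (f.finite_support).subset
  intro z hz
  rw [Function.mem_support] at hz ⊢
  intro h
  exact hz (by rw [h, mul_zero])

end CYAAux

theorem cya_thm (hCON : CONStmt) (hTCO : TCOStmt) (hLCO : LCOStmt) : CYAStmt := by
  intro α _ κ htr i w
  -- the trace of `i :: g`
  have hcyc : ∀ g : List α, nn κ (i :: g) [] = ∑' z : List α, κ i z * nn κ g z := by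
    intro g
    rw [htr, nn_append, hTCO]
    simp [hd]
  ext v
  rcases List.eq_nil_or_concat v with rfl | ⟨v', a, rfl⟩
  · rw [hcyc, hLCO]
    simp [tl, hd]
  · rw [List.concat_eq_append]
    have h1 := hCON α κ a [] v' (i :: w)
    rw [h1, hLCO, List.length_cons, Finset.sum_range_succ']
    have h2 : tl i (v' ++ [a]) (nn κ w) = if a = i then nn κ w v' else 0 := by
      simp [tl, hd]
    have h3 : ∑' z : List α, κ i z * nn κ w (v' ++ [a] ++ z) =
        ∑ j ∈ Finset.range w.length, if w[j]? = some a then
          nn κ (i :: w.take j) [] * nn κ (w.drop (j + 1)) v' else 0 := by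
      have h4 : ∀ z : List α, κ i z * nn κ w (v' ++ [a] ++ z) =
          ∑ j ∈ Finset.range w.length, κ i z * (if w[j]? = some a then
            nn κ (w.take j) z * nn κ (w.drop (j + 1)) v' else 0) := by
        intro z
        rw [List.append_assoc, List.singleton_append, hCON, Finset.mul_sum]
      simp_rw [h4]
      rw [Summable.tsum_finsetSum]
      · apply Finset.sum_congr rfl
        intro j _
        split_ifs with h
        · rw [hcyc, ← tsum_mul_right]
          congr 1
          funext z
          ring
        · simp
      · intro j _
        split_ifs with h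
        · have := (CYAAux.summ (κ i) (nn κ (w.take j))).mul_right (nn κ (w.drop (j + 1)) v')
          refine this.congr ?_
          intro z
          ring
        · simp
    rw [h2, h3, add_comm]
    congr 1
    by_cases h : a = i
    · subst h
      simp [nn_nil]
    · have h' : ¬ (i = a) := fun h9 => h h9.symm
      simp [h, h']

end Pool.CGR
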