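import Pool.Agent.H18.CGR.Stmts

/-!
# Board cgr, row RUN
-/

set_option autoImplicit false

open Filter
open scoped Topology

namespace Pool.CGR

namespace RUNAux

theorem step {m : ℕ} {k : Fin m → List (Fin m) → ℂ} (hk : Kb k) {D : List (Fin m) → ℝ}
    (hD0 : ∀ u, 0 ≤ D u) (hnil : D [] = 0)
    (hrec : ∀ (i : Fin m) (u : List (Fin m)),
      D (i :: u) ≤ 5 / 2 * D u + hd i u D + ∑' v : List (Fin m), ‖k i v‖ * D (v ++ u))
    {B : ℝ} (hB : 0 ≤ B) (hD : ∀ u, D u ≤ B * 4 ^ u.length) :
    ∀ u, D u ≤ (3 / 4 * B) * 4 ^ u.length := by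
  intro u
  cases u with
  | nil => rw [hnil]; positivity
  | cons i u =>
    have h1 := hrec i u
    have h2 := hD u
    have h3 : hd i u D ≤ B * 4 ^ u.length / 4 := by
      cases u with
      | nil =>
        simp only [hd]
        positivity
      | cons a u' =>
        simp only [hd]
        split_ifs with h
        · have := hD u'
          rw [List.length_cons, pow_succ]
          linarith
        · positivity
    have h4 : ∑' v : List (Fin m), ‖k i v‖ * D (v ++ u) ≤ B * 4 ^ u.length * (1 / 4) := by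
      have hle : ∀ v : List (Fin m), ‖k i v‖ * D (v ++ u) ≤
          (B * 4 ^ u.length) * (‖k i v‖ * 4 ^ v.length) := by
        intro v
        have h5 := hD (v ++ u)
        rw [List.length_append, pow_add] at h5
        have h6 := mul_le_mul_of_nonneg_left h5 (norm_nonneg (k i v))
        linarith
      have hs2 : Summable (fun v : List (Fin m) =>
          (B * 4 ^ u.length) * (‖k i v‖ * 4 ^ v.length)) := (hk i).1.mul_left _
      have hs1 : Summable (fun v : List (Fin m) => ‖k i v‖ * D (v ++ u)) :=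
        Summable.of_nonneg_of_le (fun v => mul_nonneg (norm_nonneg _) (hD0 _)) hle hs2
      calc ∑' v : List (Fin m), ‖k i v‖ * D (v ++ u)
          ≤ ∑' v : List (Fin m), (B * 4 ^ u.length) * (‖k i v‖ * 4 ^ v.length) :=
            hs1.tsum_le_tsum hle hs2
        _ = (B * 4 ^ u.length) * ∑' v : List (Fin m), ‖k i v‖ * 4 ^ v.length := tsum_mul_left
        _ ≤ B * 4 ^ u.length * (1 / 4) :=
            mul_le_mul_of_nonneg_left (hk i).2 (by positivity)
    rw [List.length_cons, pow_succ]
    linarith

end RUNAux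

theorem run_thm : RUNStmt := by
  intro m k hk D B hD0 hD hnil hrec u
  have hB : 0 ≤ B := by
    have := hD []
    rw [hnil] at this
    simpa using this
  have hj : ∀ j : ℕ, ∀ u, D u ≤ ((3 / 4 : ℝ) ^ j * B) * 4 ^ u.length := by
    intro j
    induction j with
    | zero => simpa using hD
    | succ j ih =>
      intro u
      have := RUNAux.step hk hD0 hnil hrec (by positivity) ih u
      calc D u ≤ (3 / 4 * ((3 / 4 : ℝ) ^ j * B)) * 4 ^ u.length := this
        _ = ((3 / 4 : ℝ) ^ (j + 1) * B) * 4 ^ u.length := by ring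
  have hlim : Tendsto (fun j : ℕ => ((3 / 4 : ℝ) ^ j * B) * 4 ^ u.length) atTop (𝓝 0) := by
    have h1 : Tendsto (fun j : ℕ => (3 / 4 : ℝ) ^ j) atTop (𝓝 0) :=
      tendsto_pow_atTop_nhds_zero_of_lt_one (by norm_num) (by norm_num)
    have h2 := (h1.mul_const B).mul_const ((4 : ℝ) ^ u.length)
    simpa using h2
  exact le_antisymm (ge_of_tendsto' hlim (fun j => hj j u)) (hD0 u)

end Pool.CGR
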